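import Pool.Agent.H52.HMS.LBase

set_option autoImplicit false

namespace Pool.HMS

open TMLib Finset

private theorem ldgr_int (D : ℕ) (U : Mat) (h : ∀ i j, IsI (ent U i j)) :
    IsI (Matrix.of fun i c : Fin D => ent U i c).det := by
  rw [Matrix.det_apply]
  refine IsI.sum fun σ _ => ?_
  have hp : IsI (∏ i, (Matrix.of fun i c : Fin D => ent U i c) (σ i) i) :=
    IsI.prod fun i _ => h _ _
  rcases Int.units_eq_one_or (Equiv.Perm.sign σ) with hs | hs
  · rw [hs, one_smul]
    exact hp
  · rw [hs]
    have : ((-1 : ℤˣ) • ∏ i, (Matrix.of fun i c : Fin D => ent U i c) (σ i) i) =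
      - ∏ i, (Matrix.of fun i c : Fin D => ent U i c) (σ i) i := by
      rw [Units.smul_def]
      simp
    rw [this]
    exact hp.neg

theorem ldgr_thm : S_LDGR := by
  intro D m B U W L r hu hl
  set U' : Matrix (Fin D) (Fin D) ℚ := Matrix.of fun i c => ent U i c with hU'
  set W' : Matrix (Fin D) (Fin D) ℚ := Matrix.of fun i c => ent W i c with hW'
  set G0 : Matrix (Fin D) (Fin D) ℚ :=
    Matrix.of fun c c' => ∑ k ∈ range m, ent B c k * ent B c' k with hG0
  set L' : Matrix (Fin D) (Fin D) ℚ := Matrix.of fun i l => L i l with hL'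
  have h1 : U' * W'.transpose = 1 := by
    ext i j
    rw [Matrix.mul_apply, Matrix.one_apply]
    have := hu.inv i i.2 j j.2
    rw [Finset.sum_range] at this
    simp only [hU', hW', Matrix.transpose_apply, Matrix.of_apply]
    rw [this]
    simp [Fin.ext_iff]
  have h2 : U' * G0 * U'.transpose =
      L' * Matrix.diagonal (fun l : Fin D => r l) * L'.transpose := by
    ext i j
    rw [Matrix.mul_apply, Matrix.mul_apply]
    have e := hl.eq i i.2 j j.2
    rw [Finset.sum_range] at e
    have e1 : ∑ l, (L' * Matrix.diagonal (fun l : Fin D => r l)) i l * L'.transpose l j =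
      ∑ l : Fin D, L i l * r l * L j l := by
      refine Finset.sum_congr rfl fun l _ => ?_
      rw [Matrix.mul_diagonal]
      rfl
    rw [e1, ← e]
    unfold gr bas
    have e2 : ∀ c' : Fin D, (U' * G0) i c' * U'.transpose c' j =
        ∑ k ∈ range m, (∑ c ∈ range D, ent U i c * ent B c k) * (ent U j c' * ent B c' k) := by
      intro c'
      rw [Matrix.mul_apply]
      simp only [hU', hG0, Matrix.transpose_apply, Matrix.of_apply]
      rw [Finset.sum_mul]
      simp_rw [Finset.mul_sum, Finset.sum_mul]
      rw [Finset.sum_comm]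
      refine Finset.sum_congr rfl fun k _ => ?_
      rw [Finset.sum_range]
      exact Finset.sum_congr rfl fun c _ => by ring
    simp_rw [e2]
    rw [Finset.sum_comm]
    refine Finset.sum_congr rfl fun k _ => ?_
    rw [← Finset.mul_sum, Finset.sum_range (fun c => ent U j c * ent B c k)]
  have d1 : U'.det * W'.det = 1 := by
    rw [← Matrix.det_transpose W', ← Matrix.det_mul, h1, Matrix.det_one]
  have d2 : L'.det = 1 := by
    rw [Matrix.det_of_lowerTriangular L' (fun i j hij => ?_)]
    · exact Finset.prod_eq_one fun i _ => hl.one i i.2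
    · exact hl.tri i i.2 j j.2 hij
  have d3 : U'.det * U'.det = 1 := by
    obtain ⟨a, ha⟩ := ldgr_int D U hu.intU
    obtain ⟨b, hb⟩ := ldgr_int D W hu.intW
    rw [← hU'] at ha
    rw [← hW'] at hb
    rw [ha, hb] at d1
    have d4 : a * b = 1 := by exact_mod_cast d1
    rcases Int.eq_one_or_neg_one_of_mul_eq_one d4 with h | h
    · rw [ha, h]; norm_num
    · rw [ha, h]; norm_num
  have d5 := congrArg Matrix.det h2
  rw [Matrix.det_mul, Matrix.det_mul, Matrix.det_mul, Matrix.det_mul, Matrix.det_transpose,
    Matrix.det_transpose, Matrix.det_diagonal, d2] at d5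
  rw [Finset.prod_range]
  linear_combination d5 - G0.det * d3

end Pool.HMS
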