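import Pool.Agent.H52.HMS.LBase

set_option autoImplicit false

namespace Pool.HMS

open TMLib Finset

private theorem lnum_num (D m s : ℕ) :
    ((D.factorial : ℚ) * mid D m (2 ^ s) ^ D ≤
      2 ^ (6 * D ^ 2 + D * (2 * D + 1) * (m + 2 * s)) ∧
      (D.factorial : ℚ) * (D * (m * (2 ^ s) ^ 2)) ^ D ≤
        2 ^ (6 * D ^ 2 + D * (2 * D + 1) * (m + 2 * s))) := by
  have hD : (D : ℚ) ≤ 2 ^ D := by exact_mod_cast Nat.lt_two_pow_self.le
  have hm : (m : ℚ) ≤ 2 ^ m := by exact_mod_cast Nat.lt_two_pow_self.le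
  have hf : (D.factorial : ℚ) ≤ 2 ^ (D ^ 2) := by
    have h1 : (D.factorial : ℚ) ≤ (D : ℚ) ^ D := by exact_mod_cast Nat.factorial_le_pow D
    refine h1.trans ?_
    rw [sq, pow_mul]
    exact pow_le_pow_left₀ (by positivity) hD D
  have hms : (m : ℚ) * (2 ^ s) ^ 2 ≤ 2 ^ (m + 2 * s) := by
    rw [pow_add, mul_comm 2 s, pow_mul]
    exact mul_le_mul_of_nonneg_right hm (by positivity)
  have hms0 : (0 : ℚ) ≤ (m : ℚ) * (2 ^ s) ^ 2 := by positivity
  have hmid : mid D m (2 ^ s) ≤ 2 ^ (5 * D + (m + 2 * s) * (2 * D + 1)) := by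
    unfold mid
    have e1 : (4 : ℚ) ^ D = 2 ^ (2 * D) := by rw [pow_mul]; norm_num
    have e2 : (D : ℚ) ^ 3 ≤ 2 ^ (3 * D) := by
      rw [mul_comm 3 D, pow_mul]
      exact pow_le_pow_left₀ (by positivity) hD 3
    have e3 : ((m : ℚ) * (2 ^ s) ^ 2) ^ (2 * D + 1) ≤ 2 ^ ((m + 2 * s) * (2 * D + 1)) := by
      rw [pow_mul]
      exact pow_le_pow_left₀ hms0 hms _
    have e4 : (2 : ℚ) ^ (5 * D + (m + 2 * s) * (2 * D + 1)) =
        2 ^ (2 * D) * 2 ^ (3 * D) * 2 ^ ((m + 2 * s) * (2 * D + 1)) := by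
      rw [← pow_add, ← pow_add]
      congr 1
      ring
    rw [e4, e1]
    exact mul_le_mul (mul_le_mul_of_nonneg_left e2 (by positivity)) e3 (by positivity)
      (by positivity)
  have hmid0 : 0 ≤ mid D m (2 ^ s) := by unfold mid; positivity
  constructor
  · have h2 : mid D m (2 ^ s) ^ D ≤ 2 ^ ((5 * D + (m + 2 * s) * (2 * D + 1)) * D) := by
      rw [pow_mul]
      exact pow_le_pow_left₀ hmid0 hmid D
    rw [show 6 * D ^ 2 + D * (2 * D + 1) * (m + 2 * s) =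
      D ^ 2 + (5 * D + (m + 2 * s) * (2 * D + 1)) * D by ring, pow_add]
    exact mul_le_mul hf h2 (by positivity) (by positivity)
  · have h2 : ((D : ℚ) * (m * (2 ^ s) ^ 2)) ^ D ≤ 2 ^ ((D + (m + 2 * s)) * D) := by
      rw [pow_mul]
      refine pow_le_pow_left₀ (by positivity) ?_ D
      rw [pow_add]
      exact mul_le_mul hD hms (by positivity) (by positivity)
    refine (mul_le_mul hf h2 (by positivity) (by positivity)).trans ?_
    rw [← pow_add]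
    refine pow_le_pow_right₀ (by norm_num) ?_
    have : (D + (m + 2 * s)) * D ≤ 5 * D ^ 2 + D * (2 * D + 1) * (m + 2 * s) := by nlinarith
    linarith

theorem lnum_thm : S_LNUM := by
  intro D m B h1 hm
  refine ⟨6 * D ^ 2 + D * (2 * D + 1) * (m + 2 * sz B), lnum_num D m (sz B), ?_⟩
  unfold kP
  rw [sz_pair, sz_pair, sz_nat, sz_nat]
  set s := sz B with hs
  simp only
  have hT : 1 + (2 * D + 1) + (1 + (2 * m + 1) + s) + 1 = 2 * D + 2 * m + s + 5 := by ring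
  rw [hT]
  generalize hTT : 2 * D + 2 * m + s + 5 = T
  have a1 : D + 1 ≤ T := by omega
  have a2 : D ≤ T := by omega
  have a3 : 2 * D + 1 ≤ T := by omega
  have a4 : m + 2 * s ≤ 2 * T := by omega
  have a5 : 1 ≤ T := by omega
  have b1 : (D + 1) ^ 2 ≤ T ^ 2 := Nat.pow_le_pow_left a1 2
  have b2 : D * (2 * D + 1) * (m + 2 * s) ≤ T * T * (2 * T) :=
    Nat.mul_le_mul (Nat.mul_le_mul a2 a3) a4
  have b3 : D ^ 2 ≤ T ^ 2 := Nat.pow_le_pow_left a2 2
  have b4 : T ^ 2 ≤ T ^ 3 := Nat.pow_le_pow_right a5 (by norm_num)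
  have b5 : 1 ≤ T ^ 3 := Nat.one_le_pow _ _ a5
  have b6 : 6 * D ^ 2 + D * (2 * D + 1) * (m + 2 * s) + 1 ≤ 9 * T ^ 3 := by
    nlinarith
  calc 40 * (D + 1) ^ 2 * (6 * D ^ 2 + D * (2 * D + 1) * (m + 2 * s) + 1)
      ≤ 40 * T ^ 2 * (9 * T ^ 3) := Nat.mul_le_mul (Nat.mul_le_mul_left _ b1) b6
    _ = 360 * T ^ 5 := by ring
    _ ≤ 1000 * T ^ 5 := Nat.mul_le_mul_right _ (by norm_num)

end Pool.HMS
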