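import Pool.Agent.H22.HMS.GCD
import Pool.Agent.H22.HMS.QMK
import Pool.Agent.H24.HMS.QSUM
import Pool.Agent.H34.HMS.QSZ
import Pool.Agent.H70.HMS.QOP
import Pool.Agent.H83.HMS.ZDIV
import Pool.Agent.H87.HMS.ZADD
import Pool.Agent.H87.HMS.ZMUL
import Pool.Agent.H76.HMS.ExStmts

set_option autoImplicit false

namespace Pool.HMS

open TMLib Finset Polynomial

private theorem epo_qops : QOps :=
  qop_thm zadd_thm zmul_thm zdiv_thm (qmk_thm zmul_thm zdiv_thm (gcd_thm zadd_thm zmul_thm zdiv_thm))

private theorem epo_qsums : QSums := qsum_thm epo_qops qsz_thm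

section

variable {α : Type} [Enc α]

@[local fun_prop] private lemma epo_add {f g : α → ℚ} (hf : PTime f) (hg : PTime g) :
    PTime (fun x => f x + g x) :=
  PTime.comp2 (g := fun a b : ℚ => a + b) epo_qops.add hf hg

@[local fun_prop] private lemma epo_mul {f g : α → ℚ} (hf : PTime f) (hg : PTime g) :
    PTime (fun x => f x * g x) :=
  PTime.comp2 (g := fun a b : ℚ => a * b) epo_qops.mul hf hg

@[local fun_prop] private lemma epo_sum {f : α → List ℚ} (hf : PTime f) :
    PTime (fun x => (f x).sum) :=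
  epo_qsums.sum.comp hf

@[local fun_prop] private lemma epo_fn {v : α → Vec} {i : α → ℕ} (hv : PTime v) (hi : PTime i) :
    PTime (fun x => fn (v x) (i x)) := PTime.listGetD hv hi (PTime.const 0)

@[local fun_prop] private lemma epo_ent {m : α → Mat} {i j : α → ℕ} (hm : PTime m) (hi : PTime i)
    (hj : PTime j) : PTime (fun x => ent (m x) (i x) (j x)) :=
  epo_fn (PTime.listGetD hm hi (PTime.const [])) hj

@[local fun_prop] private lemma epo_tab {n : α → ℕ} {f : α → ℕ → ℚ} (hn : PTime n)
    (hf : PTime (fun p : α × ℕ => f p.1 p.2)) : PTime (fun x => tab (n x) (f x)) :=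
  PTime.map (PTime.range hn) hf

@[local fun_prop] private lemma epo_sumTo {n : α → ℕ} {f : α → ℕ → ℚ} (hn : PTime n)
    (hf : PTime (fun p : α × ℕ => f p.1 p.2)) : PTime (fun x => sumTo (n x) (f x)) :=
  epo_sum (PTime.map (PTime.range hn) hf)

@[local fun_prop] private lemma epo_app {e e' : α → ℕ} {N : α → Mat} {x : α → Vec} (he : PTime e)
    (he' : PTime e') (hN : PTime N) (hx : PTime x) :
    PTime (fun a => app (e a) (e' a) (N a) (x a)) := by
  unfold app
  fun_prop

@[local fun_prop] private lemma epo_pull {e e' : α → ℕ} {N : α → Mat} {s : α → Vec} (he : PTime e)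
    (he' : PTime e') (hN : PTime N) (hs : PTime s) :
    PTime (fun a => pull (e a) (e' a) (N a) (s a)) := by
  unfold pull
  fun_prop

theorem epo_thm : S_EPO := by
  intro α _ O hO
  unfold preO
  have h1 : PTime (fun p : (α × ℕ × Mat) × Vec => O p.1.1 (app p.1.2.1 p.2.length p.1.2.2 p.2)) :=
    hO.comp (f := fun p : (α × ℕ × Mat) × Vec => (p.1.1, app p.1.2.1 p.2.length p.1.2.2 p.2))
      (by fun_prop)
  exact PTime.optMap (g := fun (p : (α × ℕ × Mat) × Vec) s => pull p.1.2.1 p.2.length p.1.2.2 s)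
    h1 (by fun_prop)

end

end Pool.HMS
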