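import Pool.Agent.H76.HMS.SvStmts

set_option autoImplicit false

namespace Pool.HMS

open TMLib Finset

private theorem vpo_tab (n : ℕ) (f : ℕ → ℚ) (i : ℕ) :
    fn (tab n f) i = if i < n then f i else 0 := by
  unfold fn tab
  by_cases h : i < n
  · simp [List.getD, h]
  · simp [List.getD, h]

private theorem vpo_sumTo (n : ℕ) (f : ℕ → ℚ) : sumTo n f = ∑ i ∈ range n, f i := by
  unfold sumTo
  induction n with
  | zero => simp
  | succ n ih =>
    rw [List.range_succ, List.map_append, List.sum_append, ih, Finset.sum_range_succ]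
    simp

private theorem vpo_cone_add (A : Set (ℕ → ℚ)) (u v : ℕ → ℚ) (hu : u ∈ Cone A) (hv : v ∈ Cone A) :
    u + v ∈ Cone A := by
  obtain ⟨k, c, a, h, rfl⟩ := hu
  obtain ⟨k', c', a', h', rfl⟩ := hv
  refine ⟨k + k', fun i => if i < k then c i else c' (i - k),
    fun i => if i < k then a i else a' (i - k), fun i hi => ?_, ?_⟩
  · by_cases hik : i < k
    · simpa [hik] using h i hik
    · simpa [hik] using h' (i - k) (by omega)
  · rw [Finset.sum_range_add]
    congr 1
    · refine Finset.sum_congr rfl fun i hi => ?_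
      rw [Finset.mem_range] at hi
      simp [hi]
    · refine Finset.sum_congr rfl fun i hi => ?_
      simp

private theorem vpo_cone_smul (A : Set (ℕ → ℚ)) (u : ℕ → ℚ) (hu : u ∈ Cone A) (t : ℚ)
    (ht : 0 ≤ t) : t • u ∈ Cone A := by
  obtain ⟨k, c, a, h, rfl⟩ := hu
  refine ⟨k, fun i => t * c i, a, fun i hi => ⟨mul_nonneg ht (h i hi).1, (h i hi).2⟩, ?_⟩
  rw [Finset.smul_sum]
  exact Finset.sum_congr rfl fun i _ => by rw [smul_smul]

private theorem vpo_conv (h1 : S_POR) (e : ℕ) (rows : Mat) (ys : ℕ → ℚ) :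
    Convex ℚ (PP e rows ys) := by
  intro x hx y hy a b ha hb hab
  refine ⟨h1.2.1 e rows hx.1 hy.1 ha hb hab, ?_⟩
  have := vpo_cone_add _ _ _ (vpo_cone_smul _ _ hx.2 a ha) (vpo_cone_smul _ _ hy.2 b hb)
  convert this using 1
  funext c
  simp only [Pi.add_apply, Pi.smul_apply, smul_eq_mul]
  have hh : hom e (a • x + b • y) c = a * hom e x c + b * hom e y c := by
    unfold hom
    split_ifs
    · simp
    · linarith
    · simp
  rw [hh]
  have : ys c = (a + b) * ys c := by rw [hab, one_mul]
  linear_combination this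

private theorem vpo_or (h1 : S_POR) (hull : HData → Option Vec) (d b : ℕ) (rows : Mat) (p : ENode)
    (ys : Vec) (hys : ys.length = p.1 + 1)
    (hg : GoodHull hull p.1 (rowsOf d rows p) p.2.2 b) :
    IsOracle p.1 (PP p.1 (rowsOf d rows p) (fn ys)) (ppO hull ((d, rows, b), p, ys)) := by
  intro q hq
  obtain ⟨o1, o2⟩ := h1.1 p.1 (rowsOf d rows p) q hq
  have hpt : fn (tab (p.1 + 1) (fun i => fn ys i -
      ((p.1 : ℚ) + 1) * (if i < p.1 then fn q i else 1))) =
      fun c => fn ys c - ((p.1 : ℚ) + 1) * hom p.1 (fn q) c := by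
    funext c
    rw [vpo_tab]
    unfold hom
    by_cases hc : c < p.1
    · simp [hc, Nat.lt_succ_of_lt hc]
    · by_cases hc' : c = p.1
      · simp [hc']
      · have h3 : ¬ c < p.1 + 1 := by omega
        have h4 : fn ys c = 0 := by
          unfold fn
          rw [List.getD_eq_default _ _ (by omega)]
        simp [hc, hc', h3, h4]
  obtain ⟨g1, g2⟩ := hg (tab (p.1 + 1) (fun i => fn ys i -
      ((p.1 : ℚ) + 1) * (if i < p.1 then fn q i else 1))) (by simp [tab])
  rw [hpt] at g1 g2
  cases hpo : polyO (rowsOf d rows p) q with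
  | some r =>
    have hpp : ppO hull ((d, rows, b), p, ys) q = some r := by
      simp only [ppO, hpo]
    rw [hpp]
    refine ⟨fun h => (by simp at h), fun s hs => ?_⟩
    obtain rfl : r = s := by simpa using hs
    exact ⟨fun x hx => (o2 r hpo).1 x hx.1, (o2 r hpo).2⟩
  | none =>
    have hin := o1 hpo
    have hpp : ppO hull ((d, rows, b), p, ys) q =
      (hull ((p.1, rowsOf d rows p, p.2.2),
      tab (p.1 + 1) (fun i => fn ys i -
        ((p.1 : ℚ) + 1) * (if i < p.1 then fn q i else 1)), b)).map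
      fun w => tab (p.1 + 1) fun k =>
        if k = 0 then sumTo (p.1 + 1) (fun i => fn w i * fn ys i) -
          ((p.1 : ℚ) + 1) * fn w p.1
        else -(((p.1 : ℚ) + 1) * fn w (k - 1)) := by
      simp only [ppO, hpo]
    rw [hpp]
    refine ⟨fun h => ?_, fun s hs => ?_⟩
    · rw [Option.map_eq_none_iff] at h
      exact ⟨hin, g1 h⟩
    · rw [Option.map_eq_some_iff] at hs
      obtain ⟨w, hw, rfl⟩ := hs
      obtain ⟨-, w2, w3⟩ := g2 w hw
      have key : ∀ x : ℕ → ℚ, aff p.1 (fn (tab (p.1 + 1) fun k =>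
        if k = 0 then sumTo (p.1 + 1) (fun i => fn w i * fn ys i) -
          ((p.1 : ℚ) + 1) * fn w p.1
        else -(((p.1 : ℚ) + 1) * fn w (k - 1)))) x =
        lin (p.1 + 1) (fn w) (fun c => fn ys c - ((p.1 : ℚ) + 1) * hom p.1 x c) := by
        intro x
        have e0 : fn (tab (p.1 + 1) fun k =>
          if k = 0 then sumTo (p.1 + 1) (fun i => fn w i * fn ys i) -
            ((p.1 : ℚ) + 1) * fn w p.1
          else -(((p.1 : ℚ) + 1) * fn w (k - 1))) 0 =
          ∑ i ∈ range (p.1 + 1), fn w i * fn ys i - ((p.1 : ℚ) + 1) * fn w p.1 := by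
          rw [vpo_tab]
          simp [vpo_sumTo]
        have e1 : ∀ i ∈ range p.1, fn (tab (p.1 + 1) fun k =>
          if k = 0 then sumTo (p.1 + 1) (fun i => fn w i * fn ys i) -
            ((p.1 : ℚ) + 1) * fn w p.1
          else -(((p.1 : ℚ) + 1) * fn w (k - 1))) (i + 1) * x i =
          -(((p.1 : ℚ) + 1) * (fn w i * hom p.1 x i)) := by
          intro i hi
          rw [Finset.mem_range] at hi
          rw [vpo_tab]
          simp only [hom, hi, if_true, Nat.add_lt_add_iff_right, Nat.add_eq_zero_iff, one_ne_zero,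
            and_false, if_false, Nat.add_sub_cancel]
          ring
        unfold aff
        rw [e0, Finset.sum_congr rfl e1, Finset.sum_neg_distrib, ← Finset.mul_sum]
        unfold lin
        have e2 : ∑ i ∈ range (p.1 + 1), fn w i * (fn ys i - ((p.1 : ℚ) + 1) * hom p.1 x i) =
          ∑ i ∈ range (p.1 + 1), fn w i * fn ys i -
            ((p.1 : ℚ) + 1) * ∑ i ∈ range (p.1 + 1), fn w i * hom p.1 x i := by
          rw [Finset.mul_sum, ← Finset.sum_sub_distrib]
          exact Finset.sum_congr rfl fun i _ => by ring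
        rw [e2, Finset.sum_range_succ (fun i => fn w i * hom p.1 x i)]
        have e3 : hom p.1 x p.1 = 1 := by simp [hom]
        rw [e3]
        ring
      refine ⟨fun x hx => ?_, ?_⟩
      · rw [key]
        exact w2 _ hx.2
      · rw [key]
        exact w3

theorem vpo_thm (h1 : S_POR) (_h2 : S_VPR) : S_VPO := ⟨vpo_conv h1, vpo_or h1⟩

end Pool.HMS
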