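import Pool.Agent.H76.HMS.SvStmts

set_option autoImplicit false

namespace Pool.HMS

open TMLib Finset

private theorem vpr_poly (h1 : S_EAP) (d : ℕ) (rows : Mat) (x : ENode) :
    Poly x.1 (rowsOf d rows x) = preK d x.1 x.2.1 (Poly d rows) := by
  obtain ⟨-, -, -, e4, e5, -⟩ := h1
  ext v
  simp only [Poly, preK, rowsOf, Set.mem_setOf_eq, List.mem_map, forall_exists_index, and_imp,
    forall_apply_eq_imp_iff₂]
  constructor
  · rintro ⟨hs, hr⟩
    refine ⟨hs, e5 _ _ _ _, fun r hr' => ?_⟩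
    rw [← e4]
    exact hr r hr'
  · rintro ⟨hs, -, hr⟩
    refine ⟨hs, fun r hr' => ?_⟩
    rw [e4]
    exact hr r hr'

private theorem vpr_hom (d e : ℕ) (N : Mat) (x : ℕ → ℚ) :
    embH d e N (hom e x) = hom d (appF d e N x) := by
  funext c
  have hs : ∑ i ∈ range e, ent N c (i + 1) * hom e x i = ∑ i ∈ range e, ent N c (i + 1) * x i := by
    refine Finset.sum_congr rfl fun i hi => ?_
    rw [Finset.mem_range] at hi
    simp [hom, hi]
  by_cases hc : c < d
  · simp only [embH, hc, if_true, hs]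
    simp [hom, hc, appF]
  · by_cases hc' : c = d
    · simp [embH, hom, hc']
    · simp [embH, hom, hc, hc']

private theorem vpr_add (d e : ℕ) (N : Mat) (u v : ℕ → ℚ) :
    embH d e N (u + v) = embH d e N u + embH d e N v := by
  funext c
  simp only [Pi.add_apply, embH]
  split_ifs
  · simp only [mul_add, Finset.sum_add_distrib]
    ring
  · rfl
  · simp

private theorem vpr_zero (d e : ℕ) (N : Mat) : embH d e N 0 = 0 := by
  funext c
  simp [embH]

private theorem vpr_sum (d e : ℕ) (N : Mat) (k : ℕ) (a : ℕ → ℕ → ℚ) :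
    embH d e N (∑ i ∈ range k, a i) = ∑ i ∈ range k, embH d e N (a i) := by
  induction k with
  | zero => simp [vpr_zero]
  | succ k ih => rw [Finset.sum_range_succ, vpr_add, ih, Finset.sum_range_succ]

private theorem vpr_lp (h1 : S_EAP) (d : ℕ) (rows : Mat) (x : ENode)
    (hI : ∀ i j, IsI (ent x.2.1 i j)) (a : ℕ → ℚ) (ha : a ∈ LP x.1 (rowsOf d rows x)) :
    appF d x.1 x.2.1 a ∈ LP d rows := by
  have hp := vpr_poly h1 d rows x
  obtain ⟨hl, hq⟩ := ha
  rw [hp] at hq
  exact ⟨h1.2.2.2.2.2.2.2.2 d x.1 x.2.1 a hI hl, hq.2⟩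

theorem vpr_thm (h1 : S_EAP) : S_VPR := by
  refine ⟨vpr_poly h1, vpr_hom, vpr_add, ?_, ?_⟩
  · rintro d rows x hI u ⟨k, a, ha, rfl⟩
    refine ⟨k, fun i => embH d x.1 x.2.1 (a i), fun i hi => ?_, vpr_sum _ _ _ _ _⟩
    obtain ⟨b, hb, hab⟩ := ha i hi
    refine ⟨appF d x.1 x.2.1 b, vpr_lp h1 d rows x hI b hb, ?_⟩
    show _ = embH d x.1 x.2.1 (a i)
    rw [← hab, vpr_hom]
  · intro d rows x a ha hI
    constructor
    · rintro ⟨b, hb, hab⟩
      have : b = a := by
        funext i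
        by_cases hi : i < x.1
        · have := congrFun hab i
          simpa [hom, hi] using this
        · rw [ha.1 i (not_lt.1 hi), hb.1.1 i (not_lt.1 hi)]
      rw [← this]
      exact vpr_lp h1 d rows x hI b hb
    · intro hq
      refine ⟨a, ⟨ha, ?_⟩, rfl⟩
      rw [vpr_poly h1]
      exact ⟨ha.1, hq.2⟩

end Pool.HMS
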